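import Pool.Agent.Helper69.MC.StC
import Pool.Agent.Helper69.MF.StA

set_option autoImplicit false

namespace Pool.Agent.Helper45.MC

open Set Topology Filter MeasureTheory
open Pool.Agent.Helper31.CY Pool.Agent.Helper69.MF Pool.Agent.Helper69.MC

theorem pt0 (a b c : ℝ) : (pt a b c) 0 = a := by simp [pt]
theorem pt1 (a b c : ℝ) : (pt a b c) 1 = b := by simp [pt]
theorem pt2 (a b c : ℝ) : (pt a b c) 2 = c := by simp [pt]

theorem ptEta (x : E3) : pt (x 0) (x 1) (x 2) = x := by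
  ext i; fin_cases i <;> simp [pt]

theorem contPt {X : Type*} [TopologicalSpace X] {f g k : X → ℝ} (hf : Continuous f)
    (hg : Continuous g) (hk : Continuous k) : Continuous (fun x => pt (f x) (g x) (k x)) := by
  unfold pt
  refine (PiLp.continuous_toLp 2 _).comp (continuous_pi fun i => ?_)
  fin_cases i <;> simp <;> assumption

theorem contCo (i : Fin 3) : Continuous (fun x : E3 => x i) := by
  fun_prop

/-- horizontal part -/
def hz (x : E3) : ℝ × ℝ := (x 0, x 1)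

theorem contHz : Continuous hz := (contCo 0).prodMk (contCo 1)

theorem ctr0 (o0 o1 : ℝ × ℝ) (h : ℝ) : ctr o0 o1 h 0 = o0 := by simp [ctr]

theorem ctrh (o0 o1 : ℝ × ℝ) (h : ℝ) (hh : h ≠ 0) : ctr o0 o1 h h = o1 := by
  simp [ctr, div_self hh]

theorem contCtr (o0 o1 : ℝ × ℝ) (h : ℝ) : Continuous (ctr o0 o1 h) := by
  unfold ctr
  fun_prop

theorem gmSub (K0 K1 : Set (ℝ × ℝ)) (h : ℝ) (h0 : IsClosed K0) (h1 : IsClosed K1) :
    Gm K0 K1 h ⊆ Dsk K0 K1 h := by
  rintro x (⟨hx, hz⟩ | ⟨hx, hz⟩)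
  · exact Or.inl ⟨h0.frontier_subset hx, hz⟩
  · exact Or.inr ⟨h1.frontier_subset hx, hz⟩

theorem dskPiece (K : Set (ℝ × ℝ)) (a : ℝ) (hK : IsCompact K) :
    IsCompact {x : E3 | (x 0, x 1) ∈ K ∧ x 2 = a} := by
  have h1 : {x : E3 | (x 0, x 1) ∈ K ∧ x 2 = a} = (fun p : ℝ × ℝ => pt p.1 p.2 a) '' K := by
    ext x
    constructor
    · rintro ⟨hx, hz⟩
      refine ⟨(x 0, x 1), hx, ?_⟩
      simp only
      rw [← hz]
      exact ptEta x
    · rintro ⟨p, hp, rfl⟩
      refine ⟨?_, pt2 _ _ _⟩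
      rw [pt0, pt1]
      exact hp
  rw [h1]
  exact hK.image (contPt continuous_fst continuous_snd continuous_const)

theorem dskCpt (K0 K1 : Set (ℝ × ℝ)) (h : ℝ) (h0 : IsCompact K0) (h1 : IsCompact K1) :
    IsCompact (Dsk K0 K1 h) := (dskPiece K0 0 h0).union (dskPiece K1 h h1)

theorem hotMono {A B : Set E3} (hAB : A ⊆ B) {γ γ' : unitInterval → E3} (h : Hot B γ γ') :
    Hot A γ γ' := by
  obtain ⟨H, h1, h2, h3, h4, h5⟩ := h
  exact ⟨H, h1, h2, h3, h4, fun q hq => h5 q (hAB hq)⟩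

/-- if `o ∈ K`, `K` convex, `o + d ∉ K`, then `o + l d ∉ K` for `l ≥ 1` -/
theorem rayOut (K : Set (ℝ × ℝ)) (hK : Convex ℝ K) (o d : ℝ × ℝ) (ho : o ∈ K) (hd : o + d ∉ K)
    (l : ℝ) (hl : 1 ≤ l) : o + l • d ∉ K := by
  intro h
  apply hd
  have hl0 : 0 < l := by linarith
  have h2 := hK ho h (sub_nonneg.2 (inv_le_one_of_one_le₀ hl)) (inv_nonneg.2 hl0.le)
    (by ring : (1 - l⁻¹) + l⁻¹ = 1)
  have h3 : (1 - l⁻¹) • o + l⁻¹ • (o + l • d) = o + d := by
    rw [smul_add, smul_smul, inv_mul_cancel₀ hl0.ne', sub_smul, one_smul, one_smul]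
    abel
  rwa [h3] at h2

theorem hDSK : StGNC → Pool.Agent.Helper69.MF.StHTE → StDSK := by
  intro hG hT K0 K1 h hh c0 c1 γ hγ
  obtain ⟨o0, ho0⟩ := c0.2.2
  obtain ⟨o1, ho1⟩ := c1.2.2
  have ho0' : o0 ∈ K0 := interior_subset ho0
  have ho1' : o1 ∈ K1 := interior_subset ho1
  set D := Dsk K0 K1 h with hD
  obtain ⟨γ1, hot1, hne⟩ := hG D o0 o1 h (dskCpt K0 K1 h c0.1 c1.1) hh.ne' γ hγ
  obtain ⟨hrefl, hsymm, htrans, hlp, -, -⟩ := hT D
  have lp1 : Lp D γ1 := hlp γ γ1 hot1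
  obtain ⟨gc, ge, gD⟩ := lp1
  have hzc : Continuous (fun s => γ1 s 2) := (contCo 2).comp gc
  have cc : Continuous (fun s => ctr o0 o1 h (γ1 s 2)) := (contCtr o0 o1 h).comp hzc
  have dc : Continuous (fun s => hz (γ1 s) - ctr o0 o1 h (γ1 s 2)) := (contHz.comp gc).sub cc
  set c : unitInterval → ℝ × ℝ := fun s => ctr o0 o1 h (γ1 s 2) with hc
  set d : unitInterval → ℝ × ℝ := fun s => hz (γ1 s) - c s with hd
  have dne : ∀ s, d s ≠ 0 := fun s h0 => hne s (sub_eq_zero.1 h0)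
  have cd : ∀ s, c s + d s = hz (γ1 s) := fun s => by simp [hd]
  obtain ⟨sm, -, hsm⟩ := (isCompact_univ (X := unitInterval)).exists_isMinOn univ_nonempty
    (dc.norm.continuousOn)
  have hδ : ∀ s, ‖d sm‖ ≤ ‖d s‖ := fun s => hsm (mem_univ s)
  have hδ0 : 0 < ‖d sm‖ := norm_pos_iff.2 (dne sm)
  obtain ⟨sM, -, hsM⟩ := (isCompact_univ (X := unitInterval)).exists_isMaxOn univ_nonempty
    (cc.norm.continuousOn)
  have hC : ∀ s, ‖c s‖ ≤ ‖c sM‖ := fun s => hsM (mem_univ s)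
  obtain ⟨R, hR⟩ := (c0.1.union c1.1).isBounded.exists_norm_le
  obtain ⟨Λ, hΛ0, hΛ⟩ : ∃ Λ : ℝ, 0 ≤ Λ ∧ ‖c sM‖ + R < (1 + Λ) * ‖d sm‖ := by
    refine ⟨max 0 ((‖c sM‖ + R + 1) / ‖d sm‖), le_max_left _ _, ?_⟩
    have h1 : (‖c sM‖ + R + 1) / ‖d sm‖ ≤ max 0 ((‖c sM‖ + R + 1) / ‖d sm‖) := le_max_right _ _
    have h2 : ‖c sM‖ + R + 1 ≤ max 0 ((‖c sM‖ + R + 1) / ‖d sm‖) * ‖d sm‖ := by
      rwa [div_le_iff₀ hδ0] at h1
    nlinarith
  have hfar : ∀ s, R < ‖c s + (1 + Λ) • d s‖ := by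
    intro s
    have h1 : ‖(1 + Λ) • d s‖ = (1 + Λ) * ‖d s‖ := by
      rw [norm_smul, Real.norm_of_nonneg (by linarith)]
    have h2 : ‖(1 + Λ) • d s‖ - ‖c s‖ ≤ ‖c s + (1 + Λ) • d s‖ := by
      have := norm_sub_norm_le ((1 + Λ) • d s) (-(c s))
      rw [norm_neg, sub_neg_eq_add, add_comm ((1 + Λ) • d s) (c s)] at this
      exact this
    have h3 : (1 + Λ) * ‖d sm‖ ≤ (1 + Λ) * ‖d s‖ :=
      mul_le_mul_of_nonneg_left (hδ s) (by linarith)
    have h4 := hC s
    linarith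
  have hfarK : ∀ s, c s + (1 + Λ) • d s ∉ K0 ∪ K1 := fun s hs => by
    have := hR _ hs
    linarith [hfar s]
  -- first homotopy
  have pe : ∀ s, c s = ctr o0 o1 h (γ1 s 2) := fun s => rfl
  have c01 : c 0 = c 1 := by rw [pe, pe, ge]
  have d01 : d 0 = d 1 := by
    show hz (γ1 0) - c 0 = hz (γ1 1) - c 1
    rw [c01, ge]
  have hot2 : Hot D γ1 (fun s => pt (c s + (1 + Λ) • d s).1 (c s + (1 + Λ) • d s).2 (γ1 s 2)) := by
    refine ⟨fun q => pt (c q.2 + (1 + (q.1 : ℝ) * Λ) • d q.2).1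
      (c q.2 + (1 + (q.1 : ℝ) * Λ) • d q.2).2 (γ1 q.2 2), ?_, ?_, ?_, ?_, ?_⟩
    · have k1 : Continuous (fun q : unitInterval × unitInterval =>
          c q.2 + (1 + (q.1 : ℝ) * Λ) • d q.2) := by
        have hc' : Continuous c := cc
        have hd' : Continuous d := dc
        fun_prop
      exact contPt (continuous_fst.comp k1) (continuous_snd.comp k1) (hzc.comp continuous_snd)
    · intro s
      have k1 : c s + (1 + ((0 : unitInterval) : ℝ) * Λ) • d s = hz (γ1 s) := by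
        simp [cd]
      show pt (c s + (1 + ((0 : unitInterval) : ℝ) * Λ) • d s).1
        (c s + (1 + ((0 : unitInterval) : ℝ) * Λ) • d s).2 (γ1 s 2) = γ1 s
      rw [k1]
      exact ptEta _
    · intro s
      simp
    · intro t
      show pt (c 0 + (1 + (t : ℝ) * Λ) • d 0).1 (c 0 + (1 + (t : ℝ) * Λ) • d 0).2 (γ1 0 2) =
        pt (c 1 + (1 + (t : ℝ) * Λ) • d 1).1 (c 1 + (1 + (t : ℝ) * Λ) • d 1).2 (γ1 1 2)
      rw [c01, d01, ge]
    · rintro ⟨t, s⟩ hq
      have hl : 1 ≤ 1 + (t : ℝ) * Λ := by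
        have := mul_nonneg t.2.1 hΛ0
        linarith
      rcases hq with ⟨h1, h2⟩ | ⟨h1, h2⟩
      · simp only [pt0, pt1, pt2] at h1 h2
        have hcs : c s = o0 := by rw [pe, h2, ctr0]
        refine rayOut K0 c0.2.1 o0 (d s) ho0' ?_ _ hl (hcs ▸ h1)
        intro h3
        apply gD s
        refine Or.inl ⟨?_, h2⟩
        have := cd s
        rw [hcs] at this
        rw [this] at h3
        exact h3
      · simp only [pt0, pt1, pt2] at h1 h2
        have hcs : c s = o1 := by rw [pe, h2, ctrh _ _ _ hh.ne']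
        refine rayOut K1 c1.2.1 o1 (d s) ho1' ?_ _ hl (hcs ▸ h1)
        intro h3
        apply gD s
        refine Or.inr ⟨?_, h2⟩
        have := cd s
        rw [hcs] at this
        rw [this] at h3
        exact h3
  -- second homotopy
  have hot3 : Hot D (fun s => pt (c s + (1 + Λ) • d s).1 (c s + (1 + Λ) • d s).2 (γ1 s 2))
      (fun s => pt (c s + (1 + Λ) • d s).1 (c s + (1 + Λ) • d s).2 (h / 2)) := by
    refine ⟨fun q => pt (c q.2 + (1 + Λ) • d q.2).1
      (c q.2 + (1 + Λ) • d q.2).2 ((1 - (q.1 : ℝ)) * γ1 q.2 2 + (q.1 : ℝ) * (h / 2)),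
      ?_, ?_, ?_, ?_, ?_⟩
    · have k1 : Continuous (fun q : unitInterval × unitInterval =>
          c q.2 + (1 + Λ) • d q.2) := by
        have hc' : Continuous c := cc
        have hd' : Continuous d := dc
        fun_prop
      refine contPt (continuous_fst.comp k1) (continuous_snd.comp k1) ?_
      have hz' : Continuous (fun q : unitInterval × unitInterval => γ1 q.2 2) :=
        hzc.comp continuous_snd
      have ht' : Continuous (fun q : unitInterval × unitInterval => (q.1 : ℝ)) :=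
        continuous_subtype_val.comp continuous_fst
      exact ((continuous_const.sub ht').mul hz').add (ht'.mul continuous_const)
    · intro s
      simp
    · intro s
      simp
    · intro t
      simp only
      rw [c01, d01, ge]
    · rintro ⟨t, s⟩ hq
      apply hfarK s
      rcases hq with ⟨h1, h2⟩ | ⟨h1, h2⟩
      · simp only [pt0, pt1] at h1
        exact Or.inl h1
      · simp only [pt0, pt1] at h1
        exact Or.inr h1
  -- third homotopy
  have hot4 : Hot D (fun s => pt (c s + (1 + Λ) • d s).1 (c s + (1 + Λ) • d s).2 (h / 2))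
      (fun _ => pt 0 0 (h / 2)) := by
    refine ⟨fun q => pt ((1 - (q.1 : ℝ)) * (c q.2 + (1 + Λ) • d q.2).1)
      ((1 - (q.1 : ℝ)) * (c q.2 + (1 + Λ) • d q.2).2) (h / 2),
      ?_, ?_, ?_, ?_, ?_⟩
    · have k1 : Continuous (fun q : unitInterval × unitInterval =>
          c q.2 + (1 + Λ) • d q.2) := by
        have hc' : Continuous c := cc
        have hd' : Continuous d := dc
        fun_prop
      have ht' : Continuous (fun q : unitInterval × unitInterval => (q.1 : ℝ)) :=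
        continuous_subtype_val.comp continuous_fst
      exact contPt ((continuous_const.sub ht').mul (continuous_fst.comp k1))
        ((continuous_const.sub ht').mul (continuous_snd.comp k1)) continuous_const
    · intro s
      simp
    · intro s
      simp
    · intro t
      simp only
      rw [c01, d01]
    · rintro ⟨t, s⟩ hq
      rcases hq with ⟨h1, h2⟩ | ⟨h1, h2⟩
      · simp only [pt2] at h2
        linarith
      · simp only [pt2] at h2
        linarith
  refine ⟨pt 0 0 (h / 2), hotMono (gmSub K0 K1 h c0.1.isClosed c1.1.isClosed) ?_⟩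
  exact htrans _ _ _ hot1 (htrans _ _ _ hot2 (htrans _ _ _ hot3 hot4))

end Pool.Agent.Helper45.MC
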